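import Pool.Agent.H.MP_294a04_nt.A

set_option autoImplicit false

namespace Pool.Agent.H.MP_2cf87a_nt

open Finset
open Pool.Agent.H.MP_294a04_nt (Av Nice sumF lvl J J_lt J_anc near S)

section Cantor
variable {ι : Type} (R : ℕ) (F : ℕ → ℕ → ι → Set ℝ)

theorem J_av (hR : 2 ≤ R) (hF : ∀ m n t c, c ∈ F m n t → n < m) (n i : ℕ) (h : i ∈ J R F n) :
    Av (R : ℝ) F n ((i : ℝ) / (R : ℝ) ^ n) := by
  intro m hm n' t c hc
  obtain ⟨k, rfl⟩ := Nat.exists_eq_add_of_le hm
  have hR0 : (0 : ℝ) < R := by exact_mod_cast (by omega : 0 < R)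
  have ha := J_anc R F m k i h
  have hlt := hF _ _ _ _ hc
  obtain ⟨m, rfl⟩ : ∃ m', m = m' + 1 := ⟨m - 1, by omega⟩
  simp only [J, mem_filter] at ha
  have h1 := ha.2.2 n' t c hc
  have h2 := near R hR (m + 1) k i
  set a : ℝ := ((i / R ^ k : ℕ) : ℝ)
  have hp : (0 : ℝ) < (R : ℝ) ^ (m + 1) := by positivity
  have h3 : |a / (R : ℝ) ^ (m + 1) - c| = |a - c * (R : ℝ) ^ (m + 1)| / (R : ℝ) ^ (m + 1) := by
    rw [← abs_of_pos hp, ← abs_div, abs_of_pos hp]; congr 1; field_simp
  have h4 : 2 * (R : ℝ) ^ (-((m + 1 : ℕ) : ℤ)) ≤ |a / (R : ℝ) ^ (m + 1) - c| := by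
    rw [h3, zpow_neg, zpow_natCast, le_div_iff₀ hp]
    calc _ = 2 := by field_simp
      _ ≤ _ := h1
  have h5 := abs_sub_le (a / (R : ℝ) ^ (m + 1)) ((i : ℝ) / (R : ℝ) ^ (m + 1 + k)) c
  rw [abs_sub_comm (a / _) ((i : ℝ) / _)] at h5
  linarith

theorem S_card (hR : 2 ≤ R) (hF : Nice (R : ℝ) F) (m n : ℕ) (t : ι) (a : ℕ)
    (ha : Av (R : ℝ) F n ((a : ℝ) / (R : ℝ) ^ n)) :
    (S R F m n t a).card ≤ 4 := by
  have hR0 : (0 : ℝ) < R := by exact_mod_cast (by omega : 0 < R)
  have hR2 : (2 : ℝ) ≤ R := by exact_mod_cast hR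
  have key : ∀ i ∈ S R F m n t a, ∀ c ∈ F m n t, |(i : ℝ) - c * (R : ℝ) ^ m| < 2 →
      |(a : ℝ) / (R : ℝ) ^ n - c| ≤ 2 * (R : ℝ) ^ (-(n : ℤ)) := by
    intro i hi c hc hic
    have hlt := hF.lt _ _ _ _ hc
    obtain ⟨k, rfl⟩ := Nat.exists_eq_add_of_lt hlt
    simp only [S, mem_filter] at hi
    have e : n + k + 1 - n = k + 1 := by omega
    rw [e] at hi
    have h2 := near R hR n (k + 1) i
    rw [hi.2.1] at h2
    have hp : (0 : ℝ) < (R : ℝ) ^ (n + k + 1) := by positivity
    have h3 : |(i : ℝ) / (R : ℝ) ^ (n + k + 1) - c|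
        = |(i : ℝ) - c * (R : ℝ) ^ (n + k + 1)| / (R : ℝ) ^ (n + k + 1) := by
      rw [← abs_of_pos hp, ← abs_div, abs_of_pos hp]; congr 1; field_simp
    have h4 : |(i : ℝ) / (R : ℝ) ^ (n + k + 1) - c| ≤ (R : ℝ) ^ (-(n : ℤ)) := by
      rw [h3, zpow_neg, zpow_natCast, div_le_iff₀ hp]
      have : (1 : ℝ) ≤ (R : ℝ) ^ k := one_le_pow₀ (by linarith)
      calc _ ≤ 2 := hic.le
        _ ≤ (R : ℝ) ^ k * R := by nlinarith
        _ = _ := by field_simp; ring
    have h5 := abs_sub_le ((a : ℝ) / (R : ℝ) ^ n) ((i : ℝ) / (R : ℝ) ^ (n + k + 1)) c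
    rw [abs_sub_comm ((a : ℝ) / _) ((i : ℝ) / _)] at h5
    have h2' : |(i : ℝ) / (R : ℝ) ^ (n + k + 1) - (a : ℝ) / (R : ℝ) ^ n| ≤ (R : ℝ) ^ (-(n : ℤ)) := h2
    linarith
  rcases (S R F m n t a).eq_empty_or_nonempty with he | hne
  · simp [he]
  · set i0 := (S R F m n t a).min' hne
    have h0 : i0 ∈ S R F m n t a := min'_mem _ _
    have hsub : S R F m n t a ⊆ Icc i0 (i0 + 3) := by
      intro i hi
      have hle : i0 ≤ i := min'_le _ _ hi
      have hi' := hi
      have h0' := h0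
      simp only [S, mem_filter] at hi' h0'
      obtain ⟨c, hc, hic⟩ := hi'.2.2
      obtain ⟨c0, hc0, hic0⟩ := h0'.2.2
      have := hF.uniq m n t _ c c0 ha hc hc0 (key i hi c hc hic) (key i0 h0 c0 hc0 hic0)
      subst this
      have a1 := abs_lt.1 hic
      have a2 := abs_lt.1 hic0
      have : (i : ℝ) < (i0 : ℝ) + 4 := by linarith
      have : i < i0 + 4 := by exact_mod_cast this
      simp only [mem_Icc]; omega
    calc _ ≤ (Icc i0 (i0 + 3)).card := card_le_card hsub
      _ = 4 := by rw [Nat.card_Icc]; omega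


def GG (G : ℕ → Finset ℝ) (m n : ℕ) (_t : Unit) : Set ℝ := {c | m = n + 1 ∧ c ∈ G m}

theorem lt_sum (G : ℕ → Finset ℝ) (hF : Nice (R : ℝ) F) :
    ∀ m n t c, c ∈ sumF F (GG G) m n t → n < m := by
  rintro m n (t | t) c hc
  · exact hF.lt _ _ _ _ hc
  · have := hc.1; omega

open Classical in
theorem near_card (N : ℕ) (y : ℝ) : ((range N).filter (fun i : ℕ => |(i : ℝ) - y| < 2)).card ≤ 4 := by
  set T := (range N).filter (fun i : ℕ => |(i : ℝ) - y| < 2) with hT
  rcases T.eq_empty_or_nonempty with he | hne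
  · simp [he]
  · have h0 : T.min' hne ∈ T := min'_mem _ _
    have hsub : T ⊆ Icc (T.min' hne) (T.min' hne + 3) := by
      intro i hi
      have hle : T.min' hne ≤ i := min'_le _ _ hi
      have a1 := abs_lt.1 (mem_filter.1 hi).2
      have a2 := abs_lt.1 (mem_filter.1 h0).2
      have : (i : ℝ) < (T.min' hne : ℕ) + 4 := by linarith
      have : i < T.min' hne + 4 := by exact_mod_cast this
      simp only [mem_Icc]; omega
    calc _ ≤ (Icc (T.min' hne) (T.min' hne + 3)).card := card_le_card hsub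
      _ = 4 := by rw [Nat.card_Icc]; omega

theorem J_step [Fintype ι] (G : ℕ → Finset ℝ) (hR : 2 ≤ R) (hF : Nice (R : ℝ) F) (n : ℕ) :
    R * (J R (sumF F (GG G)) n).card ≤ (J R (sumF F (GG G)) (n + 1)).card +
      4 * Fintype.card ι * ∑ k ∈ range (n + 1), (J R (sumF F (GG G)) k).card
      + 4 * (G (n + 1)).card := by
  classical
  set H := sumF F (GG G) with hH
  set C : Finset ℕ := ((J R H n) ×ˢ range R).image (fun p => R * p.1 + p.2) with hC
  have hCcard : C.card = R * (J R H n).card := by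
    rw [hC, card_image_of_injOn, card_product, card_range, mul_comm]
    rintro ⟨a, b⟩ hab ⟨a', b'⟩ hab' h
    simp only [coe_product, Set.mem_prod, mem_coe, coe_range, Set.mem_Iio] at hab hab'
    simp only at h
    have h1 : (R * a + b) / R = a := by
      rw [Nat.mul_add_div (by omega), Nat.div_eq_of_lt hab.2]; simp
    have h2 : (R * a' + b') / R = a' := by
      rw [Nat.mul_add_div (by omega), Nat.div_eq_of_lt hab'.2]; simp
    have : a = a' := by rw [← h1, ← h2, h]
    subst this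
    simp only [Prod.mk.injEq, true_and]; omega
  set B : Finset ℕ := (range (n + 1)).biUnion (fun k => (univ : Finset ι).biUnion
    (fun t => (J R H k).biUnion (fun a => S R F (n + 1) k t a))) with hB
  set B' : Finset ℕ := (G (n + 1)).biUnion (fun c => (range (R ^ (n + 1))).filter
    (fun i : ℕ => |(i : ℝ) - c * (R : ℝ) ^ (n + 1)| < 2)) with hB'
  have hBcard : B.card ≤ 4 * Fintype.card ι * ∑ k ∈ range (n + 1), (J R H k).card := by
    rw [mul_sum]
    refine card_biUnion_le.trans (sum_le_sum fun k _ => ?_)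
    refine card_biUnion_le.trans ?_
    calc _ ≤ ∑ _t : ι, 4 * (J R H k).card := by
          refine sum_le_sum fun t _ => card_biUnion_le.trans ?_
          calc _ ≤ ∑ _a ∈ J R H k, 4 := sum_le_sum fun a ha => S_card R F hR hF _ _ t a
                (fun m' hm n' t' c hc =>
                  J_av R H hR (lt_sum R F G hF) k a ha m' hm n' (Sum.inl t') c hc)
            _ = _ := by simp [mul_comm]
      _ = _ := by simp; ring
  have hB'card : B'.card ≤ 4 * (G (n + 1)).card := by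
    refine card_biUnion_le.trans ?_
    calc _ ≤ ∑ _c ∈ G (n + 1), 4 := sum_le_sum fun c _ => near_card _ _
      _ = _ := by simp [mul_comm]
  have hsub : C ⊆ J R H (n + 1) ∪ B ∪ B' := by
    intro i hi
    simp only [hC, mem_image, mem_product, mem_range] at hi
    obtain ⟨⟨a, b⟩, ⟨ha, hb⟩, rfl⟩ := hi
    simp only at ha hb ⊢
    have h1 : (R * a + b) / R = a := by
      rw [Nat.mul_add_div (by omega), Nat.div_eq_of_lt hb]; simp
    have hlt : R * a + b < R ^ (n + 1) := by
      have := J_lt R H n a ha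
      calc R * a + b < R * a + R := by omega
        _ = R * (a + 1) := by ring
        _ ≤ R * R ^ n := Nat.mul_le_mul_left _ this
        _ = _ := by ring
    by_cases hl : lvl R H (n + 1) (R * a + b)
    · apply mem_union_left
      apply mem_union_left
      simp only [J, mem_filter, mem_range]
      exact ⟨hlt, by rw [h1]; exact ha, hl⟩
    · simp only [lvl, not_forall, not_le] at hl
      obtain ⟨k, t | t, c, hc, hic⟩ := hl
      · apply mem_union_left
        apply mem_union_right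
        have hk := hF.lt _ _ _ _ hc
        obtain ⟨d, rfl⟩ : ∃ d, n = k + d := ⟨n - k, by omega⟩
        simp only [hB, mem_biUnion, mem_range, mem_univ, true_and]
        refine ⟨k, hk, t, a / R ^ d, J_anc R H k d a ha, ?_⟩
        simp only [S, mem_filter, mem_range]
        refine ⟨hlt, ?_, c, hc, hic⟩
        have e : k + d + 1 - k = d + 1 := by omega
        rw [e, pow_succ', ← Nat.div_div_eq_div_mul, h1]
      · apply mem_union_right
        simp only [hB', mem_biUnion, mem_filter, mem_range]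
        exact ⟨c, hc.2, hlt, hic⟩
  calc _ = C.card := hCcard.symm
    _ ≤ (J R H (n + 1) ∪ B ∪ B').card := card_le_card hsub
    _ ≤ (J R H (n + 1) ∪ B).card + B'.card := card_union_le _ _
    _ ≤ (J R H (n + 1)).card + B.card + B'.card := by gcongr; exact card_union_le _ _
    _ ≤ _ := by omega

theorem J_inv [Fintype ι] (G : ℕ → Finset ℝ) (hR : 16 * Fintype.card ι + 4 ≤ R) (hF : Nice (R : ℝ) F)
    (hG : ∀ m, 4 * (G (m + 1)).card * 2 ^ m ≤ R ^ m) (n : ℕ) :
    R ^ n ≤ 2 ^ n * (J R (sumF F (GG G)) n).card ∧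
      ∑ k ∈ range (n + 1), (J R (sumF F (GG G)) k).card ≤ 2 * (J R (sumF F (GG G)) n).card := by
  induction n with
  | zero => simp [J]
  | succ n ih =>
    have h := J_step R F G (by omega) hF n
    set a := (J R (sumF F (GG G)) n).card
    set a' := (J R (sumF F (GG G)) (n + 1)).card
    have h1 : 4 * Fintype.card ι * ∑ k ∈ range (n + 1), (J R (sumF F (GG G)) k).card
        ≤ 8 * Fintype.card ι * a := by
      calc _ ≤ 4 * Fintype.card ι * (2 * a) := Nat.mul_le_mul_left _ ih.2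
        _ = _ := by ring
    have h0 : 4 * (G (n + 1)).card ≤ a := by
      have := (hG n).trans ih.1
      rw [mul_comm (2 ^ n)] at this
      exact Nat.le_of_mul_le_mul_right this (by positivity)
    have h2 : (16 * Fintype.card ι + 4) * a ≤ R * a := Nat.mul_le_mul_right _ hR
    have h3 : R * a ≤ 2 * a' := by nlinarith
    have h4 : 2 * a ≤ a' := by nlinarith
    refine ⟨?_, by rw [sum_range_succ]; omega⟩
    calc R ^ (n + 1) = R * R ^ n := by ring
      _ ≤ R * (2 ^ n * a) := Nat.mul_le_mul_left _ ih.1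
      _ = 2 ^ n * (R * a) := by ring
      _ ≤ 2 ^ n * (2 * a') := Nat.mul_le_mul_left _ h3
      _ = _ := by ring

theorem cantorG [Fintype ι] (G : ℕ → Finset ℝ) (hR : 16 * Fintype.card ι + 4 ≤ R)
    (hF : Nice (R : ℝ) F) (hG : ∀ m, 4 * (G (m + 1)).card * 2 ^ m ≤ R ^ m) :
    ∃ x : ℝ, (∀ m n t, ∀ c ∈ F m n t, (R : ℝ) ^ (-(m : ℤ)) ≤ |x - c|) ∧
      ∀ m, ∀ c ∈ G (m + 1), (R : ℝ) ^ (-((m + 1 : ℕ) : ℤ)) ≤ |x - c| := by
  have hR0 : (0 : ℝ) < R := by exact_mod_cast (by omega : 0 < R)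
  set H := sumF F (GG G) with hH
  let K : ℕ → Set ℝ := fun n => Set.Icc 0 1 ∩ {x | Av (R : ℝ) H n x}
  have hcl : ∀ n, IsClosed {x | Av (R : ℝ) H n x} := by
    intro n
    simp only [Av, Set.setOf_forall]
    refine isClosed_iInter fun m => isClosed_iInter fun _ => isClosed_iInter fun n' =>
      isClosed_iInter fun t => isClosed_iInter fun c => isClosed_iInter fun _ => ?_
    exact isClosed_le continuous_const (by fun_prop)
  have hne : ∀ n, (K n).Nonempty := by
    intro n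
    have h1 := (J_inv R F G hR hF hG n).1
    have h2 : 0 < R ^ n := pow_pos (by omega) n
    obtain ⟨i, hi⟩ := card_pos.1 (Nat.pos_of_mul_pos_left (h2.trans_le h1))
    refine ⟨(i : ℝ) / (R : ℝ) ^ n, ⟨by positivity, ?_⟩, J_av R H (by omega) (lt_sum R F G hF) n i hi⟩
    rw [div_le_one (by positivity)]
    exact_mod_cast (J_lt R H n i hi).le
  obtain ⟨x, hx⟩ := IsCompact.nonempty_iInter_of_sequence_nonempty_isCompact_isClosed K
    (fun n x hx => ⟨hx.1, fun m hm => hx.2 m (by omega)⟩) hne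
    (isCompact_Icc.inter_right (hcl 0)) (fun n => isClosed_Icc.inter (hcl n))
  refine ⟨x, fun m n t c hc => ?_, fun m c hc => ?_⟩
  · exact (Set.mem_iInter.1 hx m).2 m le_rfl n (Sum.inl t) c hc
  · exact (Set.mem_iInter.1 hx (m + 1)).2 (m + 1) le_rfl m (Sum.inr ()) c ⟨rfl, hc⟩

end Cantor

end Pool.Agent.H.MP_2cf87a_nt
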