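import Pool.Agent.H.MP_2cf87a_nt.A

set_option autoImplicit false

namespace Pool.Agent.H.MP_2cf87a_nt

open MeasureTheory Set
open scoped ENNReal NNReal
open Pool.Agent.H.MP_294a04_nt (Nice)

theorem cover_of_zero {E : Set (ℝ × ℝ)} {d : ℝ} (hd : 0 < d) (h : μH[d] E = 0) {δ : ℝ} (hδ : 0 < δ) :
    ∃ (z : ℕ → ℝ × ℝ) (r : ℕ → ℝ), (∀ n, 0 < r n) ∧ (∀ p ∈ E, ∃ n, dist p (z n) ≤ r n) ∧
      ∑' n, ENNReal.ofReal (r n ^ d) ≤ ENNReal.ofReal (2 * δ) := by
  classical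
  rw [Measure.hausdorffMeasure_apply] at h
  have h1 := (le_iSup₂_of_le (f := fun (r : ℝ≥0∞) (_ : 0 < r) =>
    ⨅ (t : ℕ → Set (ℝ × ℝ)) (_ : E ⊆ ⋃ n, t n) (_ : ∀ n, Metric.ediam (t n) ≤ r),
      ∑' n, ⨆ _ : (t n).Nonempty, Metric.ediam (t n) ^ d) 1 one_pos le_rfl).trans h.le
  have h2 := h1.trans_lt (ENNReal.ofReal_pos.2 hδ)
  simp only [iInf_lt_iff] at h2
  obtain ⟨t, hc, hdiam, hsum⟩ := h2
  obtain ⟨ε, hε0, hε⟩ := ENNReal.exists_pos_sum_of_countable (ENNReal.ofReal_pos.2 hδ).ne' ℕ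
  have hfin : ∀ n, Metric.ediam (t n) ≠ ∞ := fun n => ne_top_of_le_ne_top ENNReal.one_ne_top (hdiam n)
  refine ⟨fun n => if hn : (t n).Nonempty then hn.some else 0,
    fun n => max (Metric.ediam (t n)).toReal ((ε n : ℝ) ^ (1 / d)), fun n => ?_, fun p hp => ?_, ?_⟩
  · exact lt_max_of_lt_right (Real.rpow_pos_of_pos (by exact_mod_cast hε0 n) _)
  · obtain ⟨n, hn⟩ := mem_iUnion.1 (hc hp)
    have hne : (t n).Nonempty := ⟨p, hn⟩
    refine ⟨n, le_trans ?_ (le_max_left _ _)⟩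
    simp only [dif_pos hne]
    rw [dist_edist]
    exact ENNReal.toReal_mono (hfin n) (Metric.edist_le_ediam_of_mem hn hne.some_mem)
  · have key : ∀ n, ENNReal.ofReal ((max (Metric.ediam (t n)).toReal ((ε n : ℝ) ^ (1 / d))) ^ d)
        ≤ (⨆ _ : (t n).Nonempty, Metric.ediam (t n) ^ d) + ε n := by
      intro n
      rcases le_total (Metric.ediam (t n)).toReal ((ε n : ℝ) ^ (1 / d)) with hle | hle
      · rw [max_eq_right hle, ← Real.rpow_mul (NNReal.coe_nonneg _), one_div_mul_cancel hd.ne',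
          Real.rpow_one, ENNReal.ofReal_coe_nnreal]
        exact le_add_self
      · rw [max_eq_left hle]
        by_cases hne : (t n).Nonempty
        · rw [iSup_pos hne, ← ENNReal.ofReal_rpow_of_nonneg ENNReal.toReal_nonneg hd.le,
            ENNReal.ofReal_toReal (hfin n)]
          exact le_self_add
        · rw [not_nonempty_iff_eq_empty.1 hne]
          simp [Real.zero_rpow hd.ne']
    calc _ ≤ ∑' n, ((⨆ _ : (t n).Nonempty, Metric.ediam (t n) ^ d) + ε n) :=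
          ENNReal.tsum_le_tsum key
      _ = _ := ENNReal.tsum_add
      _ ≤ ENNReal.ofReal δ + ENNReal.ofReal δ := add_le_add hsum.le hε.le
      _ = _ := by rw [← ENNReal.ofReal_add hδ.le hδ.le, two_mul]

theorem good_fibre {Z : Set ℝ} (hZ : ENNReal.ofReal (1 / 4) < volume Z) (z r : ℕ → ℝ)
    (hr : ∀ n, 0 < r n) {σ δ : ℝ} (hδ : 0 < δ)
    (hs : ∑' n, ENNReal.ofReal (r n ^ (1 + σ)) ≤ ENNReal.ofReal (2 * δ)) :
    ∃ ζ ∈ Z, ∀ T : Finset ℕ, (∀ n ∈ T, |ζ - z n| ≤ r n) → ∑ n ∈ T, r n ^ σ ≤ 16 * δ := by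
  set φ : ℝ → ℝ≥0∞ := fun ζ => ∑' n, (Icc (z n - r n) (z n + r n)).indicator
    (fun _ => ENNReal.ofReal (r n ^ σ)) ζ with hφ
  have hm : ∀ n, Measurable ((Icc (z n - r n) (z n + r n)).indicator
    (fun _ => ENNReal.ofReal (r n ^ σ))) := fun n => measurable_const.indicator measurableSet_Icc
  have hφm : Measurable φ := Measurable.ennreal_tsum hm
  have hint : ∫⁻ ζ, φ ζ ≤ ENNReal.ofReal (4 * δ) := by
    rw [hφ, lintegral_tsum fun n => (hm n).aemeasurable]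
    have e : ∀ n, ∫⁻ ζ, (Icc (z n - r n) (z n + r n)).indicator
        (fun _ => ENNReal.ofReal (r n ^ σ)) ζ = 2 * ENNReal.ofReal (r n ^ (1 + σ)) := by
      intro n
      have := hr n
      rw [lintegral_indicator_const measurableSet_Icc, Real.volume_Icc,
        ← ENNReal.ofReal_mul (by positivity), Real.rpow_add (hr n), Real.rpow_one,
        ← ENNReal.ofReal_ofNat 2, ← ENNReal.ofReal_mul (by norm_num)]
      congr 1; ring
    simp only [e]
    rw [ENNReal.tsum_mul_left]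
    calc _ ≤ 2 * ENNReal.ofReal (2 * δ) := by gcongr
      _ = _ := by
        rw [← ENNReal.ofReal_ofNat 2, ← ENNReal.ofReal_mul (by norm_num)]; congr 1; ring
  have hmk := (mul_meas_ge_le_lintegral₀ (μ := volume) hφm.aemeasurable
    (ENNReal.ofReal (16 * δ))).trans hint
  by_contra hc
  have hsub : Z ⊆ {ζ | ENNReal.ofReal (16 * δ) ≤ φ ζ} := by
    intro ζ hζ
    by_contra hlt
    apply hc
    refine ⟨ζ, hζ, fun T hT => ?_⟩
    have h1 : φ ζ ≤ ENNReal.ofReal (16 * δ) := (not_le.1 hlt).le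
    have h2 : ∑ n ∈ T, ENNReal.ofReal (r n ^ σ) ≤ φ ζ := by
      refine le_trans (le_of_eq ?_) (ENNReal.sum_le_tsum T)
      refine Finset.sum_congr rfl fun n hn => ?_
      have := abs_le.1 (hT n hn)
      rw [indicator_of_mem (show ζ ∈ Icc (z n - r n) (z n + r n) from ⟨by linarith, by linarith⟩)]
    rw [← ENNReal.ofReal_sum_of_nonneg fun n _ => (Real.rpow_pos_of_pos (hr n) _).le] at h2
    exact (ENNReal.ofReal_le_ofReal_iff (by positivity)).1 (h2.trans h1)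
  have h3 : ENNReal.ofReal (16 * δ) * ENNReal.ofReal (1 / 4)
      < ENNReal.ofReal (16 * δ) * volume {ζ | ENNReal.ofReal (16 * δ) ≤ φ ζ} :=
    ENNReal.mul_lt_mul_right (ENNReal.ofReal_pos.2 (by positivity)).ne' ENNReal.ofReal_ne_top
      (hZ.trans_le (measure_mono hsub))
  rw [← ENNReal.ofReal_mul (by positivity)] at h3
  have e : 16 * δ * (1 / 4) = 4 * δ := by ring
  rw [e] at h3
  exact absurd hmk (not_le.2 h3)

theorem hm_ne_zero {ι : Type} [Fintype ι] (R : ℕ) (hR : 16 * Fintype.card ι + 4 ≤ R) {σ : ℝ}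
    (hσ0 : 0 < σ) (hσ1 : σ ≤ 1) (hσ : (R : ℝ) ^ σ ≤ R / 2) {Z : Set ℝ}
    (hZ : ENNReal.ofReal (1 / 4) < volume Z) (F : ℝ → ℕ → ℕ → ι → Set ℝ)
    (hF : ∀ ζ ∈ Z, Nice (R : ℝ) (F ζ)) {E : Set (ℝ × ℝ)}
    (hE : ∀ ζ ∈ Z, ∀ x : ℝ, (∀ m n t, ∀ c ∈ F ζ m n t, (R : ℝ) ^ (-(m : ℤ)) ≤ |x - c|) → (x, ζ) ∈ E) :
    μH[1 + σ] E ≠ 0 := by
  classical
  intro h0
  have hR4 : (4 : ℝ) ≤ R := by exact_mod_cast (by omega : 4 ≤ R)
  set δ : ℝ := 1 / (32 * (R : ℝ) ^ 2) with hδ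
  have δ0 : 0 < δ := by positivity
  obtain ⟨z, r, hr, hcov, hs⟩ := cover_of_zero (by linarith) h0 δ0
  obtain ⟨ζ, hζ, hT⟩ := good_fibre hZ (fun n => (z n).2) r hr δ0 hs
  set I : ℕ → Set ℕ := fun m => {n | |ζ - (z n).2| ≤ r n ∧ (R : ℝ) ^ m ≤ 1 / (2 * r n) ∧
    1 / (2 * r n) < (R : ℝ) ^ (m + 1)} with hI
  have hb : ∀ m, ∀ T : Finset ℕ, (T : Set ℕ) ⊆ I m → (T.card : ℝ) ≤ 32 * δ * ((R : ℝ) / 2) ^ (m + 1) := by
    intro m T hsub
    have h1 := hT T (fun n hn => (hsub hn).1)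
    have hp : (0 : ℝ) < ((R : ℝ) / 2) ^ (m + 1) := by positivity
    have h2 : ∀ n ∈ T, 1 / (2 * ((R : ℝ) / 2) ^ (m + 1)) ≤ r n ^ σ := by
      intro n hn
      have h3 := (hsub hn).2.2
      have rn := hr n
      rw [div_lt_iff₀ (by positivity)] at h3
      have h4 : (1 : ℝ) ≤ ((R : ℝ) ^ (m + 1) * (2 * r n)) ^ σ := Real.one_le_rpow h3.le hσ0.le
      rw [Real.mul_rpow (by positivity) (by positivity), Real.mul_rpow (by positivity) (by positivity),
        ← Real.rpow_natCast, ← Real.rpow_mul (by positivity), mul_comm _ σ,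
        Real.rpow_mul (by positivity), Real.rpow_natCast] at h4
      have h5 : ((R : ℝ) ^ σ) ^ (m + 1) ≤ ((R : ℝ) / 2) ^ (m + 1) := by gcongr
      have h6 : (2 : ℝ) ^ σ ≤ 2 := by
        simpa using Real.rpow_le_rpow_of_exponent_le (show (1 : ℝ) ≤ 2 by norm_num) hσ1
      rw [div_le_iff₀ (by positivity)]
      have h7 : 0 < r n ^ σ := Real.rpow_pos_of_pos rn _
      calc 1 ≤ _ := h4
        _ ≤ ((R : ℝ) / 2) ^ (m + 1) * (2 * r n ^ σ) := by gcongr
        _ = _ := by ring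
    have h8 := Finset.card_nsmul_le_sum T _ _ h2
    rw [nsmul_eq_mul, mul_one_div, div_le_iff₀ (by positivity)] at h8
    nlinarith
  have hfin : ∀ m, (I m).Finite := by
    intro m
    by_contra hinf
    obtain ⟨N, hN⟩ := exists_nat_gt (32 * δ * ((R : ℝ) / 2) ^ (m + 1))
    obtain ⟨T, hsub, hc⟩ := Set.Infinite.exists_subset_card_eq hinf N
    have := hb m T hsub
    rw [hc] at this
    linarith
  have eδ : 32 * δ * (R : ℝ) ^ 2 = 1 := by rw [hδ]; field_simp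
  obtain ⟨x, hx1, hx2⟩ := cantorG R (F ζ) (fun m => (hfin m).toFinset.image (fun n => (z n).1)) hR
    (hF ζ hζ) (fun m => by
      have h1 := hb (m + 1) (hfin (m + 1)).toFinset (by simp)
      have h2 : (((hfin (m + 1)).toFinset.image (fun n => (z n).1)).card : ℝ)
          ≤ (hfin (m + 1)).toFinset.card := by exact_mod_cast Finset.card_image_le
      have h3 : 4 * (((hfin (m + 1)).toFinset.image (fun n => (z n).1)).card : ℝ) * 2 ^ m
          ≤ (R : ℝ) ^ m := by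
        calc _ ≤ 4 * (32 * δ * ((R : ℝ) / 2) ^ (m + 1 + 1)) * 2 ^ m := by gcongr; exact h2.trans h1
          _ = (32 * δ * (R : ℝ) ^ 2) * (R : ℝ) ^ m := by rw [div_pow]; field_simp; ring
          _ = _ := by rw [eδ, one_mul]
      exact_mod_cast h3)
  obtain ⟨n, hn⟩ := hcov _ (hE ζ hζ x hx1)
  rw [Prod.dist_eq, max_le_iff, Real.dist_eq, Real.dist_eq] at hn
  have rn := hr n
  have h1 : r n ≤ 1 / 2 := by
    by_contra hc
    have h2 := hT {n} (by simpa using hn.2)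
    rw [Finset.sum_singleton] at h2
    have h3 : (1 / 2 : ℝ) ^ σ ≤ r n ^ σ := Real.rpow_le_rpow (by norm_num) (not_le.1 hc).le hσ0.le
    have h4 : (1 / 2 : ℝ) ^ (1 : ℝ) ≤ (1 / 2 : ℝ) ^ σ :=
      Real.rpow_le_rpow_of_exponent_ge (by norm_num) (by norm_num) hσ1
    rw [Real.rpow_one] at h4
    nlinarith
  obtain ⟨m, hm1, hm2⟩ := exists_nat_pow_near (x := 1 / (2 * r n)) (y := (R : ℝ))
    (by rw [le_div_iff₀ (by positivity)]; linarith) (by linarith)
  have hmem : n ∈ I m := ⟨hn.2, hm1, hm2⟩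
  cases m with
  | zero =>
    have := hb 0 {n} (by simpa using hmem)
    simp only [Finset.card_singleton, Nat.cast_one, zero_add, pow_one] at this
    nlinarith
  | succ m =>
    have h5 := hx2 m (z n).1 (Finset.mem_image.2 ⟨n, by simpa using hmem, rfl⟩)
    rw [zpow_neg, zpow_natCast] at h5
    have h6 := h5.trans hn.1
    rw [le_div_iff₀ (by positivity)] at hm1
    have hp : (0 : ℝ) < (R : ℝ) ^ (m + 1) := by positivity
    rw [inv_le_iff_one_le_mul₀ hp] at h6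
    nlinarith

theorem exists_Z {p : ℝ} (hp : 2 < p) : ∃ k : ℕ, 0 < k ∧ ENNReal.ofReal (1 / 4) <
    volume {ζ : ℝ | ∀ n : ℕ, 0 < n → ∀ m : ℤ, 1 / ((k : ℝ) * (n : ℝ) ^ p) ≤ |ζ - m / n|} := by
  set Z : ℕ → Set ℝ := fun k =>
    {ζ : ℝ | ∀ n : ℕ, 0 < n → ∀ m : ℤ, 1 / (((k + 1 : ℕ) : ℝ) * (n : ℝ) ^ p) ≤ |ζ - m / n|} with hZ
  have hmono : Monotone Z := by
    intro k k' hk ζ hζ n hn m
    refine le_trans ?_ (hζ n hn m)
    have : (0 : ℝ) < n := by exact_mod_cast hn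
    gcongr
  have hae : ∀ᵐ ζ : ℝ, ζ ∈ ⋃ k, Z k := by
    have hirr : ∀ᵐ ζ : ℝ, Irrational ζ := by
      have : (Set.range ((↑) : ℚ → ℝ)).Countable := countable_range _
      exact this.ae_notMem volume
    filter_upwards [ae_not_liouvilleWith, hirr] with ζ h1 h2
    have h3 := h1 p hp
    simp only [LiouvilleWith, not_exists, Filter.not_frequently] at h3
    obtain ⟨N, hN⟩ := Filter.eventually_atTop.1 (h3 1)
    have h4 : ∀ n : ℕ, ∃ k : ℕ, 0 < n → ∀ m : ℤ,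
        1 / (((k + 1 : ℕ) : ℝ) * (n : ℝ) ^ p) ≤ |ζ - m / n| := by
      intro n
      by_cases hn : 0 < n
      swap
      · exact ⟨0, fun h => absurd h hn⟩
      have n0 : (0 : ℝ) < n := by exact_mod_cast hn
      have n1 : (1 : ℝ) ≤ n := by exact_mod_cast hn
      have a0 : 0 < |n * ζ - round (n * ζ)| := by
        rw [abs_pos, sub_ne_zero]
        exact (h2.natCast_mul hn.ne').ne_int _
      obtain ⟨k, hk⟩ := exists_nat_ge (1 / |n * ζ - round (n * ζ)|)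
      refine ⟨k, fun _ m => ?_⟩
      have a1 := round_le ((n : ℝ) * ζ) m
      have e : |ζ - m / n| = |n * ζ - m| / n := by
        rw [← abs_of_pos n0, ← abs_div, abs_of_pos n0]; congr 1; field_simp
      have a2 : (n : ℝ) ≤ (n : ℝ) ^ p := by
        simpa using Real.rpow_le_rpow_of_exponent_le n1 (show (1 : ℝ) ≤ p by linarith)
      rw [e, div_le_div_iff₀ (by positivity) n0, one_mul]
      rw [div_le_iff₀ a0] at hk
      push_cast
      calc (n : ℝ) ≤ (n : ℝ) ^ p := a2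
        _ = 1 * (n : ℝ) ^ p := by ring
        _ ≤ (|n * ζ - m| * (k + 1)) * (n : ℝ) ^ p := by gcongr; nlinarith
        _ = _ := by ring
    choose g hg using h4
    refine mem_iUnion.2 ⟨(Finset.range N).sup g, fun n hn m => ?_⟩
    have n0 : (0 : ℝ) < n := by exact_mod_cast hn
    by_cases hlt : n < N
    · refine le_trans ?_ (hg n hn m)
      have : g n ≤ (Finset.range N).sup g := Finset.le_sup (Finset.mem_range.2 hlt)
      gcongr
    · have h5 := hN n (not_lt.1 hlt) m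
      rw [not_and, not_lt] at h5
      refine le_trans ?_ (h5 ?_)
      · have : (1 : ℝ) ≤ (((Finset.range N).sup g + 1 : ℕ) : ℝ) := by exact_mod_cast Nat.succ_pos _
        have : 0 < (n : ℝ) ^ p := by positivity
        apply one_div_le_one_div_of_le this
        nlinarith
      · exact_mod_cast h2.ne_rational m n
  have hvol : volume (⋃ k, Z k) = ∞ := by
    have : (⋃ k, Z k) =ᵐ[volume] (univ : Set ℝ) := by
      rw [ae_eq_univ]; exact hae
    rw [measure_congr this, Real.volume_univ]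
  rw [hmono.measure_iUnion] at hvol
  have : ENNReal.ofReal (1 / 4) < ⨆ k, volume (Z k) := by rw [hvol]; exact ENNReal.ofReal_lt_top
  obtain ⟨k, hk⟩ := lt_iSup_iff.1 this
  exact ⟨k + 1, Nat.succ_pos _, hk⟩

end Pool.Agent.H.MP_2cf87a_nt
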