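import Pool.Agent.H.MP_2cf87a_nt.B
import Pool.Agent.H.MP_ed6e5c_nt.A

set_option autoImplicit false

namespace Pool.Agent.H.MP_2cf87a_nt

open Pool.Agent.H.MP_294a04_nt (one_le_abs Nice Av)
open Pool.Agent.H.MP_ed6e5c_nt

def HZ (ρ κ ζ : ℝ) : Prop :=
  ∀ y : ℝ, ∀ q r : ℤ, q ≠ 0 → |(q : ℝ)| ≤ ρ ^ y → ρ ^ (-(y + κ / 20 * y + 1)) ≤ |q * ζ - r|

def Prim (ρ κ ζ : ℝ) (m : ℕ) (v : ℤ) (c : ℝ) : Prop :=
  |v| < m ∧ ∃ t : ℝ, 3 * t = m + v - κ * |(v : ℝ)| - 8 ∧ ∃ p r q : ℤ, 1 ≤ q ∧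
    |(q : ℝ)| ≤ ρ ^ (2 * t + 1) ∧ |q * ζ - r| ≤ ρ ^ (-(t + v + 8)) ∧ c = p / q

def Dual (ρ κ ζ : ℝ) (m : ℕ) (h : ℤ) (c : ℝ) : Prop :=
  |h| < m ∧ ∃ α : ℝ, 3 * α = m - h - 2 / 3 * (κ * |(h : ℝ)|) - 16 ∧ 0 ≤ α + h ∧ ∃ A B C : ℤ, A ≠ 0 ∧
    |(A : ℝ)| ≤ ρ ^ (α + 1) ∧ |(B : ℝ)| ≤ ρ ^ (α + h) ∧
    c = -(((1 : ℤ) : ℝ) * B * ζ + C) / (((1 : ℤ) : ℝ) * A)

def cls (sg : Bool) (N : ℕ) : ℤ := if sg = true then N else -N

theorem cls_abs (sg : Bool) (N : ℕ) : |((cls sg N : ℤ) : ℝ)| = N := by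
  cases sg <;> simp [cls]

def Sys (ρ κ ζ : ℝ) (s : ℕ) (m n : ℕ) (t : Bool × Bool × Fin s) : Set ℝ :=
  {c | ∃ k : ℕ, m = n + 1 + k ∧
    (if t.1 = true then Prim ρ κ ζ m (cls t.2.1 (s * k + t.2.2)) c
      else Dual ρ κ ζ m (cls t.2.1 (s * k + t.2.2)) c)}

theorem cls_eq {s : ℕ} (v : ℤ) :
    cls (decide (0 ≤ v)) (s * (v.natAbs / s) + v.natAbs % s) = v := by
  rw [Nat.div_add_mod]
  unfold cls
  by_cases h : 0 ≤ v
  · rw [if_pos (by simpa using h)]; omega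
  · rw [if_neg (by simpa using h)]; omega

theorem Prim.mem {ρ κ ζ : ℝ} {s : ℕ} (hs : 0 < s) {m : ℕ} {v : ℤ} {c : ℝ} (h : Prim ρ κ ζ m v c) :
    ∃ n t, c ∈ Sys ρ κ ζ s m n t := by
  have h1 := h.1
  have h2 : v.natAbs / s ≤ v.natAbs := Nat.div_le_self _ _
  rw [Int.abs_eq_natAbs] at h1
  refine ⟨m - 1 - v.natAbs / s, (true, decide (0 ≤ v), ⟨v.natAbs % s, Nat.mod_lt _ hs⟩),
    v.natAbs / s, by omega, ?_⟩
  simp only [if_true]
  rwa [cls_eq]

theorem Dual.mem {ρ κ ζ : ℝ} {s : ℕ} (hs : 0 < s) {m : ℕ} {v : ℤ} {c : ℝ} (h : Dual ρ κ ζ m v c) :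
    ∃ n t, c ∈ Sys ρ κ ζ s m n t := by
  have h1 := h.1
  have h2 : v.natAbs / s ≤ v.natAbs := Nat.div_le_self _ _
  rw [Int.abs_eq_natAbs] at h1
  refine ⟨m - 1 - v.natAbs / s, (false, decide (0 ≤ v), ⟨v.natAbs % s, Nat.mod_lt _ hs⟩),
    v.natAbs / s, by omega, ?_⟩
  simp only [Bool.false_eq_true, if_false]
  rwa [cls_eq]

theorem lattice (y c : ℝ) : ∃ M : ℤ, ∃ t : ℝ, 3 * t = M + c ∧ t ≤ y ∧ y ≤ t + 1 / 3 := by
  refine ⟨⌊3 * y - c⌋, (⌊3 * y - c⌋ + c) / 3, by ring, ?_, ?_⟩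
  · have := Int.floor_le (3 * y - c); linarith
  · have := Int.lt_floor_add_one (3 * y - c); linarith

theorem logex {ρ x : ℝ} (hρ : 4 ≤ ρ) (hx : 0 < x) : ∃ y : ℝ, ρ ^ y = x :=
  ⟨Real.logb ρ x, Real.rpow_logb (by linarith) (by linarith) hx⟩

/-- a rational point gives an object -/
theorem mkPrim {ρ κ ζ : ℝ} (hρ : 4 ≤ ρ) (κ0 : 0 < κ) (κ1 : κ ≤ 1 / 2) (hζ : HZ ρ κ ζ) (p r q v : ℤ)
    (hq : 1 ≤ q) {y : ℝ} (hy : ρ ^ y = |(q : ℝ)|) (hr : |q * ζ - r| ≤ ρ ^ (-(y / 2 + v + 8))) :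
    ∃ m : ℕ, ∃ t : ℝ, 3 * t = m + v - κ * |(v : ℝ)| - 8 ∧ 2 * t ≤ y ∧ y ≤ 2 * t + 1 ∧
      Prim ρ κ ζ m v (p / q) := by
  obtain ⟨M, t, e, t1, t2⟩ := lattice (y / 2) (v - κ * |(v : ℝ)| - 8)
  have y0 : 0 ≤ y := rnz hρ hy.ge (by omega)
  have h1 := rcmp hρ ((hζ y q r (by omega) hy.ge).trans hr)
  have h2 : κ * y ≤ 1 / 2 * y := by gcongr
  have V0 : 0 ≤ κ * |(v : ℝ)| := by positivity
  have h3 : |(v : ℝ)| < M := by
    rcases abs_cases (v : ℝ) with h | h <;> rw [h.1] at * <;> linarith [h.2]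
  have h4 : |v| < M := by exact_mod_cast h3
  have h5 : 0 ≤ M := (abs_nonneg v).trans h4.le
  obtain ⟨m, rfl⟩ := Int.eq_ofNat_of_zero_le h5
  push_cast at e
  refine ⟨m, t, by linarith, by linarith, by linarith, h4, t, by linarith, p, r, q, hq,
    hy.ge.trans (rmono hρ (by linarith)), hr.trans (rmono hρ (by linarith)), rfl⟩

theorem niceSys {ρ κ ζ : ℝ} {s : ℕ} (hρ : 4 ≤ ρ) (κ0 : 0 < κ) (κ1 : κ ≤ 1 / 2) (hs : 10 ≤ κ * s)
    (hζ : HZ ρ κ ζ) : Nice ρ (Sys ρ κ ζ s) := by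
  have s0 : 0 < s := by
    rcases Nat.eq_zero_or_pos s with h | h
    · rw [h] at hs; norm_num at hs
    · exact h
  constructor
  · rintro m n t c ⟨k, h, -⟩; omega
  · rintro m n ⟨b, sg, u⟩ x c1 c2 hav ⟨k, e1, o1⟩ ⟨k2, e2, o2⟩ d1 d2
    obtain rfl : k = k2 := by omega
    simp only at o1 o2
    have hV := cls_abs sg (s * k + u)
    generalize cls sg (s * k + u) = v at o1 o2 hV
    have k0 : (0 : ℝ) ≤ k := Nat.cast_nonneg _
    have hk : 10 * (k : ℝ) ≤ κ * |(v : ℝ)| := by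
      rw [hV]; push_cast
      have : (0 : ℝ) ≤ (u : ℕ) := Nat.cast_nonneg _
      nlinarith
    have en : (m : ℝ) = n + 1 + k := by exact_mod_cast e1
    rw [zr] at d1 d2
    by_contra hne
    have V1 := le_abs_self (v : ℝ)
    have V2 := neg_abs_le (v : ℝ)
    have V0 := abs_nonneg (v : ℝ)
    have V3 : κ * |(v : ℝ)| ≤ 1 / 2 * |(v : ℝ)| := by gcongr
    cases b with
    | true =>
      simp only [if_true] at o1 o2
      obtain ⟨-, t, m1, p1, r1, q1, h1, hq1, hd1, rfl⟩ := o1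
      obtain ⟨-, t', m2, p2, r2, q2, h2, hq2, hd2, rfl⟩ := o2
      obtain rfl : t = t' := by linarith
      obtain ⟨A, B, C, hB0, hA, hB, hL⟩ := pts_line hρ (D := 1) h1 h2 hq1 hq2 hd1 hd2 d1 d2
        (one_dvd _) (one_dvd _) hne
      rw [one_mul] at hB0
      have hA' := hA
      have hB' := hB
      rw [Int.cast_one, one_mul] at hA' hB'
      have t0 := rnz hρ hq1 (by omega)
      have β0 := rnz hρ hB' hB0
      by_cases hA0 : A = 0
      · subst hA0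
        have h3 := hζ (t + v) B (-C) hB0 (hB'.trans (rmono hρ (by linarith)))
        have e : (B : ℝ) * ζ - ((-C : ℤ) : ℝ)
            = ((1 : ℤ) : ℝ) * ((0 : ℤ) : ℝ) * x + ((1 : ℤ) : ℝ) * B * ζ + C := by push_cast; ring
        rw [e] at h3
        have h4 := rcmp hρ (h3.trans hL)
        have h5 := rcmp hρ ((hζ _ q1 r1 (by omega) hq1).trans hd1)
        have f1 : 0 ≤ κ * (|(v : ℝ)| - v) := by positivity
        have f2 : 0 ≤ (1 / 2 - κ) * (2 * t + 1) := by have : 0 ≤ 1 / 2 - κ := by linarith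
                                                      positivity
        rcases le_total (t / 2) v with hc | hc
        · have f3 : 0 ≤ κ * (v - t / 2) := by have : 0 ≤ v - t / 2 := by linarith
                                              positivity
          nlinarith
        · have f3 : 0 ≤ κ * (t / 2 - v) := by have : 0 ≤ t / 2 - v := by linarith
                                              positivity
          nlinarith
      · have A1 := one_le_abs hA0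
        obtain ⟨a, ha⟩ := logex hρ (show 0 < |(A : ℝ)| by linarith)
        have a0 := rnz hρ ha.ge hA0
        have a1 := rcmp hρ (ha.le.trans hA')
        obtain ⟨h, g1, g2⟩ : ∃ h : ℤ, 2 * (2 * t + 1) + 1 - n - a + 1 ≤ h ∧
            h ≤ 2 * (2 * t + 1) + 1 - n - a + 2 :=
          ⟨_, Int.le_ceil _, by have := Int.ceil_lt_add_one (2 * (2 * t + 1) + 1 - (n : ℝ) - a + 1); linarith⟩
        obtain ⟨M, α, e, α1, α2⟩ := lattice a (-h - 2 / 3 * (κ * |(h : ℝ)|) - 16)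
        have H0 : 0 ≤ κ * |(h : ℝ)| := by positivity
        have H1 : |(h : ℝ)| ≤ 5 / 2 * |(v : ℝ)| + 4 + (t - v - 6 - a) := by
          rw [abs_le]; constructor <;> linarith
        have H2 : κ * |(h : ℝ)| ≤ κ * (5 / 2 * |(v : ℝ)| + 4 + (t - v - 6 - a)) := by gcongr
        have H3 : κ * (t - v - 6 - a) ≤ 1 / 2 * (t - v - 6 - a) := by gcongr; linarith
        have h3 : |(h : ℝ)| < M := by
          rcases abs_cases (h : ℝ) with g | g <;> rw [g.1] at * <;> linarith [g.2]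
        have h4 : |h| < M := by exact_mod_cast h3
        obtain ⟨m', rfl⟩ := Int.eq_ofNat_of_zero_le ((abs_nonneg h).trans h4.le)
        push_cast at e
        have hD : Dual ρ κ ζ m' h (-(((1 : ℤ) : ℝ) * B * ζ + C) / (((1 : ℤ) : ℝ) * A)) :=
          ⟨h4, α, by linarith, by linarith, A, B, C, hA0, ha.ge.trans (rmono hρ (by linarith)),
            hB'.trans (rmono hρ (by linarith)), rfl⟩
        obtain ⟨n', t', hm⟩ := hD.mem s0
        have c1 := hav _ (by exact_mod_cast (show (m' : ℝ) ≤ n by linarith)) n' t' _ hm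
        rw [zr] at c1
        rw [add_assoc] at hL
        have c2 := rcmp hρ (c1.trans (line_close hρ hL (b := a) (by simpa using ha.le)))
        linarith
    | false =>
      simp only [Bool.false_eq_true, if_false] at o1 o2
      obtain ⟨-, α, m1, β0, A1, B1, C1, hA01, hA1, hB1, rfl⟩ := o1
      obtain ⟨-, α', m2, -, A2, B2, C2, hA02, hA2, hB2, rfl⟩ := o2
      obtain rfl : α = α' := by linarith
      obtain ⟨p, r, q, hq1, -, hq, hp, hr⟩ := lines_pt hρ (D := 1) (δ := 0) hA01 hA02 one_ne_zero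
        (by simp) hA1 hA2 hB1 hB2 d1 d2 (by linarith) hne
      have Q1 := one_le_abs (show q ≠ 0 by omega)
      obtain ⟨y, hy⟩ := logex hρ (show 0 < |(q : ℝ)| by linarith)
      have y1 := rcmp hρ (hy.le.trans hq)
      obtain ⟨w, g1, g2⟩ : ∃ w : ℤ, α + v - y / 2 ≤ w ∧ w ≤ α + v - y / 2 + 1 :=
        ⟨_, Int.le_ceil _, (Int.ceil_lt_add_one _).le⟩
      obtain ⟨m0, t, e, t1, t2, hP⟩ := mkPrim hρ κ0 κ1 hζ p r q w hq1 hy
        (hr.trans (rmono hρ (by linarith)))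
      have W1 : |(w : ℝ)| ≤ 1 / 2 * |(v : ℝ)| + 1 + 1 / 2 * (2 * α + v + 2 - y) := by
        rw [abs_le]; constructor <;> linarith
      have W2 : κ * |(w : ℝ)| ≤ κ * (1 / 2 * |(v : ℝ)| + 1 + 1 / 2 * (2 * α + v + 2 - y)) := by gcongr
      have W3 : κ * (2 * α + v + 2 - y) ≤ 1 / 2 * (2 * α + v + 2 - y) := by gcongr; linarith
      obtain ⟨n', t', hm⟩ := hP.mem s0
      have c1 := hav _ (by exact_mod_cast (show (m0 : ℝ) ≤ n by linarith)) n' t' _ hm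
      rw [zr] at c1
      have c2 := rcmp hρ (c1.trans (pt_close hρ hq1 hp hy.le))
      linarith

theorem finalSys {ρ κ ζ x σ : ℝ} {s : ℕ} (hρ : 4 ≤ ρ) (κ0 : 0 < κ) (σ0 : 0 < σ) (hκ : 2 * κ = 1 - σ)
    (hs : 0 < s) (hζ : HZ ρ κ ζ)
    (h : ∀ m n t, ∀ c ∈ Sys ρ κ ζ s m n t, ρ ^ (-(m : ℤ)) ≤ |x - c|) (p r q : ℤ) (hq : 1 ≤ q) :
    ρ ^ (-52 : ℝ) ≤ q * (min |q * x - p| |q * ζ - r|) ^ σ * (max |q * x - p| |q * ζ - r|) ^ (2 - σ) := by
  have κ1 : κ ≤ 1 / 2 := by linarith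
  have q1 : (1 : ℝ) ≤ q := by exact_mod_cast hq
  obtain ⟨y, hy⟩ := logex hρ (show 0 < |(q : ℝ)| by rw [abs_of_pos] <;> linarith)
  obtain ⟨l, hl⟩ := logex hρ ((rpos hρ _).trans_le (hζ y q r (by omega) hy.ge))
  obtain ⟨v, g1, g2⟩ : ∃ v : ℤ, v ≤ -l - y / 2 - 8 ∧ -l - y / 2 - 8 ≤ v + 1 :=
    ⟨_, Int.floor_le _, (Int.lt_floor_add_one _).le⟩
  obtain ⟨m, t, e, t1, t2, hP⟩ := mkPrim hρ κ0 κ1 hζ p r q v hq hy
    (hl.ge.trans (rmono hρ (by linarith)))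
  obtain ⟨n', t', hm⟩ := hP.mem hs
  have c1 := h _ _ _ _ hm
  rw [zr] at c1
  have c2 := pt_far hρ hq c1 hy.le
  obtain ⟨l1, hl1⟩ := logex hρ ((rpos hρ _).trans_le c2)
  have c3 := rcmp hρ (c2.trans hl1.ge)
  rw [abs_of_pos (by linarith : (0 : ℝ) < q)] at hy
  rw [← hl, ← hl1, ← hy]
  obtain ⟨w, rfl⟩ : ∃ w, l = -(y / 2 + w) := ⟨-l - y / 2, by ring⟩
  obtain ⟨w1, rfl⟩ : ∃ w, l1 = -(y / 2 + w) := ⟨-l1 - y / 2, by ring⟩
  have W1 : |(v : ℝ)| ≤ |w| + 9 := by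
    have := le_abs_self w
    have := neg_abs_le w
    rw [abs_le]; constructor <;> linarith
  have W2 : κ * |(v : ℝ)| ≤ κ * (|w| + 9) := by gcongr
  have W3 : w1 ≤ -w + κ * |w| + 26 := by linarith
  have ρ0 : 0 ≤ ρ := by linarith
  rcases le_total w1 w with hc | hc
  · rw [min_eq_right (rmono hρ (by linarith)), max_eq_left (rmono hρ (by linarith)),
      ← Real.rpow_mul ρ0, ← Real.rpow_mul ρ0, ← radd hρ, ← radd hρ]
    apply rmono hρ
    rcases abs_cases w with g | g <;> rw [g.1] at W3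
    · have f1 : w1 * (2 - σ) ≤ (-w + κ * w + 26) * (2 - σ) := by gcongr; linarith
      have f2 : 0 ≤ w * κ * (3 - σ - 1) := by have : 0 ≤ 3 - σ - 1 := by linarith
                                              have := g.2
                                              positivity
      have e1 : σ = 1 - 2 * κ := by linarith
      subst e1
      nlinarith [g.2]
    · nlinarith [g.2]
  · rw [min_eq_left (rmono hρ (by linarith)), max_eq_right (rmono hρ (by linarith)),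
      ← Real.rpow_mul ρ0, ← Real.rpow_mul ρ0, ← radd hρ, ← radd hρ]
    apply rmono hρ
    rcases abs_cases w with g | g <;> rw [g.1] at W3
    · have f0 : κ * w ≤ 1 / 2 * w := by gcongr; exact g.2
      have f1 : w * (2 - σ) ≤ w1 * (2 - σ) := by gcongr; linarith
      nlinarith [g.2]
    · have f1 : w1 * σ ≤ (-w + κ * -w + 26) * σ := by gcongr
      have e1 : σ = 1 - 2 * κ := by linarith
      subst e1
      have f2 : 0 ≤ -w * κ := by have : 0 ≤ -w := by linarith [g.2]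
                                 positivity
      have f3 : 0 ≤ -w * κ * κ := by positivity
      nlinarith [g.2]

end Pool.Agent.H.MP_2cf87a_nt
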