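import Pool.Agent.H.MP_2cf87a_nt.C

set_option autoImplicit false

namespace Pool.Agent.H.MP_2cf87a_nt

open MeasureTheory Set
open scoped ENNReal NNReal
open Pool.Agent.H.MP_ed6e5c_nt

def BP (s : ℝ) : Set (ℝ × ℝ) :=
  {p | ∃ c : ℝ, 0 < c ∧ ∀ n : ℕ, 1 ≤ n →
    c ≤ n * (min |n * p.1 - round (n * p.1)| |n * p.2 - round (n * p.2)|) ^ s *
      (max |n * p.1 - round (n * p.1)| |n * p.2 - round (n * p.2)|) ^ (2 - s)}

theorem hz_of {ρ κ ζ : ℝ} {k : ℕ} (hρ : 4 ≤ ρ) (κ0 : 0 < κ) (k0 : 0 < k) (hk : (k : ℝ) ≤ ρ)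
    (h : ∀ n : ℕ, 0 < n → ∀ m : ℤ, 1 / ((k : ℝ) * (n : ℝ) ^ (2 + κ / 20)) ≤ |ζ - m / n|) :
    HZ ρ κ ζ := by
  have pos : ∀ y : ℝ, ∀ q r : ℤ, 1 ≤ q → |(q : ℝ)| ≤ ρ ^ y →
      ρ ^ (-(y + κ / 20 * y + 1)) ≤ |q * ζ - r| := by
    intro y q r hq hy
    obtain ⟨n, rfl⟩ := Int.eq_ofNat_of_zero_le (show 0 ≤ q by omega)
    have n0 : 0 < n := by exact_mod_cast hq
    have n1 : (0 : ℝ) < n := by exact_mod_cast n0
    obtain ⟨l, hl⟩ := logex hρ n1
    rw [Int.cast_natCast, Nat.abs_cast] at hy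
    have h1 := rcmp hρ (hl.le.trans hy)
    have h2 : ρ ^ (-(l * (2 + κ / 20) + 1)) ≤ |ζ - r / ((n : ℤ) : ℝ)| := by
      refine le_trans ?_ (h n n0 r)
      rw [Real.rpow_neg (by linarith), ← one_div, radd hρ, Real.rpow_mul (by linarith), hl,
        Real.rpow_one, mul_comm]
      have : (0 : ℝ) < k := by exact_mod_cast k0
      gcongr
    refine le_trans (rmono hρ ?_) (pt_far hρ hq h2 (b := l) (by simpa using hl.le))
    nlinarith
  intro y q r hq hy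
  rcases lt_or_gt_of_ne hq with h0 | h0
  · have := pos y (-q) (-r) (by omega) (by rwa [Int.cast_neg, abs_neg])
    rw [← abs_neg]
    convert this using 2
    push_cast; ring
  · exact pos y q r h0 hy

theorem lower {s σ : ℝ} (s0 : 0 < s) (s1 : s < 1) (σ0 : 0 < σ) (σ1 : σ < 1) :
    μH[1 + σ] (BP s) ≠ 0 := by
  set κ := (1 - s) / 2 with hκ
  have κ0 : 0 < κ := by rw [hκ]; linarith
  obtain ⟨k, k0, hZ⟩ := exists_Z (p := 2 + κ / 20) (by linarith)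
  obtain ⟨N, hN⟩ := exists_nat_ge (10 / κ)
  obtain ⟨R0, hR0⟩ := exists_nat_ge ((2 : ℝ) ^ (1 / (1 - σ)))
  set R : ℕ := R0 + k + 64 * N + 4 with hR
  have hρ : (4 : ℝ) ≤ R := by exact_mod_cast (by omega : 4 ≤ R)
  have hN' : 10 ≤ κ * N := by rw [div_le_iff₀ κ0] at hN; linarith
  have N0 : 0 < N := by
    rcases Nat.eq_zero_or_pos N with h | h
    · rw [h] at hN'; norm_num at hN'
    · exact h
  have hσ : (R : ℝ) ^ σ ≤ R / 2 := by
    have h1 : (2 : ℝ) ^ (1 / (1 - σ)) ≤ R := hR0.trans (by exact_mod_cast (by omega : R0 ≤ R))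
    have h2 := Real.rpow_le_rpow (by positivity) h1 (show 0 ≤ 1 - σ by linarith)
    rw [← Real.rpow_mul (by norm_num), one_div_mul_cancel (by linarith), Real.rpow_one,
      Real.rpow_sub (by linarith), Real.rpow_one, le_div_iff₀ (rpos hρ _)] at h2
    linarith
  have hz : ∀ ζ ∈ {ζ : ℝ | ∀ n : ℕ, 0 < n → ∀ m : ℤ,
      1 / ((k : ℝ) * (n : ℝ) ^ (2 + κ / 20)) ≤ |ζ - m / n|}, HZ R κ ζ := fun ζ hζ =>
    hz_of hρ κ0 k0 (by exact_mod_cast (by omega : k ≤ R)) hζ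
  refine hm_ne_zero (ι := Bool × Bool × Fin N) R (by simp; omega) σ0 σ1.le hσ hZ
    (fun ζ => Sys R κ ζ N) (fun ζ hζ => niceSys hρ κ0 (by rw [hκ]; linarith) hN' (hz ζ hζ)) ?_
  intro ζ hζ x hx
  refine ⟨_, rpos hρ (-52), fun n hn => ?_⟩
  simpa using finalSys hρ κ0 s0 (by rw [hκ]; ring) N0 (hz ζ hζ) hx (round ((n : ℝ) * x))
    (round ((n : ℝ) * ζ)) n (by exact_mod_cast hn)

theorem dim_BP {s : ℝ} (s0 : 0 < s) (s1 : s < 1) : dimH (BP s) = 2 := by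
  apply le_antisymm
  · have := dimH_mono (subset_univ (BP s))
    rw [Real.dimH_univ_eq_finrank] at this
    simpa using this
  · refine le_of_forall_lt fun a ha => ?_
    obtain ⟨b, hb1, hb2⟩ := exists_between (max_lt ha (show (1 : ℝ≥0∞) < 2 by norm_num))
    lift b to ℝ≥0 using ne_top_of_lt hb2
    have b1 : (1 : ℝ) < b := by exact_mod_cast (le_max_right _ _).trans_lt hb1
    have b2 : (b : ℝ) < 2 := by exact_mod_cast hb2
    refine ((le_max_left _ _).trans_lt hb1).trans_le (le_dimH_of_hausdorffMeasure_ne_zero ?_)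
    have := lower s0 s1 (σ := b - 1) (by linarith) (by linarith)
    rwa [add_sub_cancel] at this

end Pool.Agent.H.MP_2cf87a_nt
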